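import Pool.Agent.Lib.helper31.Wav

set_option autoImplicit false

namespace Pool.Agent.Results.MP_a8995d_an.MultRec

open Filter Topology Polynomial Finset Pool.Agent.H31Wav

noncomputable def vec (W : ℕ → ℂ) (m : ℕ) (f : ℂ → ℂ) (t : ℂ) : L2 :=
  ∑ i ∈ range m, ((fwdDiff 1)^[i] f t / W i) • delta i

lemma sum_apply' (c : ℕ → ℂ) (m n : ℕ) :
    (∑ i ∈ range m, c i • delta i : L2) n = if n < m then c n else 0 := by
  rw [lp.coeFn_sum, Finset.sum_apply]
  simp only [lp.coeFn_smul, Pi.smul_apply, delta_apply, smul_eq_mul, mul_ite, mul_one, mul_zero]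
  rw [Finset.sum_ite_eq]
  simp

lemma vec_apply (W : ℕ → ℂ) {m : ℕ} {f : ℂ → ℂ} (hf : ∀ n, m ≤ n → (fwdDiff 1)^[n] f = 0)
    (t : ℂ) (n : ℕ) : vec W m f t n = (fwdDiff 1)^[n] f t / W n := by
  rw [vec, sum_apply']
  split_ifs with h
  · rfl
  · rw [hf n (not_lt.1 h)]; simp

lemma interp (d : ℕ) : ∀ c : ℕ → ℂ, ∃ q : ℂ[X], q.natDegree ≤ d ∧
    (∀ n, d ≤ n → (fwdDiff 1)^[n] q.eval = 0) ∧ ∀ i < d, (fwdDiff 1)^[i] q.eval 0 = c i := by
  induction d with
  | zero => exact fun c => ⟨0, by simp, fun n _ => Function.iterate_fixed (by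
      funext x; simp [fwdDiff]) n |>.trans (by funext x; simp), by simp⟩
  | succ d ih =>
    intro c
    let g : ℂ → ℂ := (c d / d.factorial) • fun r => r ^ d
    obtain ⟨q, h1, h2, h3⟩ := ih fun i => c i - (fwdDiff 1)^[i] g 0
    have e : (q + C (c d / d.factorial) * X ^ d).eval = q.eval + g := by funext x; simp [g]
    have hd : (q + C (c d / d.factorial) * X ^ d).natDegree ≤ d :=
      natDegree_add_le_of_degree_le h1 (natDegree_C_mul_X_pow_le _ _)
    refine ⟨q + C (c d / d.factorial) * X ^ d, by omega,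
      fun n hn => fwdDiff_iter_eq_zero_of_degree_lt (by omega), fun i hi => ?_⟩
    rw [e, fwdDiff_iter_add, Pi.add_apply]
    rcases Nat.lt_succ_iff_lt_or_eq.1 hi with h | rfl
    · rw [h3 i h]; ring
    · have : (i.factorial : ℂ) ≠ 0 := by exact_mod_cast i.factorial_ne_zero
      rw [h2 i le_rfl, fwdDiff_iter_const_smul, fwdDiff_iter_eq_factorial]
      simp [this]

lemma zl : Tendsto (fun k : ℕ => ((k : ℂ))⁻¹) atTop (𝓝 0) := tendsto_inv_atTop_nhds_zero_nat

lemma qz {q : ℂ[X]} {M : ℕ} (h : q.natDegree < M) (a b : ℂ) :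
    Tendsto (fun k : ℕ => q.eval (a * k + b) * ((k : ℂ))⁻¹ ^ M) atTop (𝓝 0) := by
  have : Tendsto (fun k : ℕ => ∑ i ∈ range M, q.coeff i * ((a + b * (k : ℂ)⁻¹) ^ i *
      ((k : ℂ))⁻¹ ^ (M - i))) atTop (𝓝 (∑ i ∈ range M, q.coeff i * ((a + b * 0) ^ i *
      0 ^ (M - i)))) := tendsto_finsetSum _ fun i _ =>
    ((((zl.const_mul b).const_add a).pow i).mul (zl.pow _)).const_mul _
  rw [Finset.sum_eq_zero fun i hi => by
    rw [zero_pow (by have := mem_range.1 hi; omega)]; simp] at this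
  refine this.congr' ((eventually_gt_atTop 0).mono fun k hk => ?_)
  have k0 : (k : ℂ) ≠ 0 := by exact_mod_cast hk.ne'
  simp only
  rw [eval_eq_sum_range' h, Finset.sum_mul]
  refine Finset.sum_congr rfl fun i hi => ?_
  obtain ⟨r, rfl⟩ := Nat.exists_eq_add_of_le (mem_range.1 hi).le
  rw [Nat.add_sub_cancel_left, show a + b * (k : ℂ)⁻¹ = (a * k + b) * (k : ℂ)⁻¹ by field_simp,
    mul_pow, pow_add]
  ring

noncomputable def pk (q : ℂ[X]) (N M k : ℕ) : ℂ[X] := ∑ l ∈ range (N + 1),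
  q.comp (X - C ((l : ℂ) * k)) *
    (∏ i ∈ (range (N + 1)).erase l, C (((l : ℂ) - i)⁻¹ * (k : ℂ)⁻¹) * (X - C ((i : ℂ) * k))) ^ M

lemma pk_deg (q : ℂ[X]) (N M k : ℕ) : (pk q N M k).natDegree ≤ q.natDegree + M * (N + 1) := by
  refine natDegree_sum_le_of_forall_le _ _ fun l _ => natDegree_mul_le.trans (add_le_add ?_ ?_)
  · exact natDegree_comp_le.trans
      ((Nat.mul_le_mul_left _ (natDegree_X_sub_C_le _)).trans (mul_one _).le)
  · refine natDegree_pow_le.trans (Nat.mul_le_mul_left _ ((natDegree_prod_le _ _).trans ?_))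
    refine (Finset.sum_le_card_nsmul _ _ 1 fun i _ =>
      (natDegree_C_mul_le _ _).trans (natDegree_X_sub_C_le _)).trans ?_
    simpa using Finset.card_erase_le (s := range (N + 1)) (a := l)

lemma pk_lim {q : ℂ[X]} {M : ℕ} (h : q.natDegree < M) {N j : ℕ} (hj : j ≤ N) (b : ℂ) :
    Tendsto (fun k : ℕ => (pk q N M k).eval ((j : ℂ) * k + b)) atTop (𝓝 (q.eval b)) := by
  have hj' : j ∈ range (N + 1) := mem_range.2 (by omega)
  have G : ∀ (l : ℕ) (s : Finset ℕ), Tendsto (fun k : ℕ => ∏ i ∈ s, ((l : ℂ) - i)⁻¹ *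
      ((j : ℂ) - i + b * (k : ℂ)⁻¹)) atTop (𝓝 (∏ i ∈ s, ((l : ℂ) - i)⁻¹ * ((j : ℂ) - i + b * 0))) :=
    fun l s => tendsto_finsetProd _ fun i _ => ((zl.const_mul b).const_add _).const_mul _
  have key : Tendsto (fun k : ℕ => ∑ l ∈ range (N + 1), q.eval (((j : ℂ) - l) * k + b) *
      (∏ i ∈ (range (N + 1)).erase l, ((l : ℂ) - i)⁻¹ * ((j : ℂ) - i + b * (k : ℂ)⁻¹)) ^ M) atTop
      (𝓝 (∑ l ∈ range (N + 1), if l = j then q.eval b else 0)) := by
    refine tendsto_finsetSum _ fun l _ => ?_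
    split_ifs with e
    · subst e
      have := ((G l ((range (N + 1)).erase l)).pow M).const_mul (q.eval b)
      rw [Finset.prod_eq_one fun i hi => by
        rw [mul_zero, add_zero]
        exact inv_mul_cancel₀ (sub_ne_zero.2 (by exact_mod_cast (ne_of_mem_erase hi).symm)),
        one_pow, mul_one] at this
      simpa using this
    · have := (qz h ((j : ℂ) - l) b).mul
        (((G l (((range (N + 1)).erase l).erase j)).const_mul (((l : ℂ) - j)⁻¹ * b)).pow M)
      rw [zero_mul] at this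
      refine this.congr fun k => ?_
      rw [← Finset.mul_prod_erase _ _ (mem_erase.2 ⟨Ne.symm e, hj'⟩), mul_assoc, ← mul_pow]
      congr 2
      ring
  rw [Finset.sum_ite_eq', if_pos hj'] at key
  refine key.congr' ((eventually_gt_atTop 0).mono fun k hk => ?_)
  have k0 : (k : ℂ) ≠ 0 := by exact_mod_cast hk.ne'
  simp only [pk, eval_finsetSum, eval_mul, eval_comp, eval_sub, eval_X, eval_C, eval_pow, eval_prod]
  refine Finset.sum_congr rfl fun l _ => ?_
  congr 2
  · ring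
  · refine Finset.prod_congr rfl fun i _ => ?_
    rw [mul_assoc]; congr 1; field_simp; ring

/-- topological multiple recurrence -/
def MultRec {X : Type} [NormedAddCommGroup X] [NormedSpace ℂ X] (S : X →L[ℂ] X) : Prop :=
  ∀ U : Set X, IsOpen U → U.Nonempty → ∀ N : ℕ, ∃ k, 1 ≤ k ∧ ∃ x, ∀ j ≤ N, (S ^ (j * k)) x ∈ U

/-- the operator `I + T` -/
noncomputable def idAdd {X : Type} [NormedAddCommGroup X] [NormedSpace ℂ X] (T : X →L[ℂ] X) :
    X →L[ℂ] X := 1 + T

/-- `T` is the backward shift with weights `w` -/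
def IsShift (w : ℕ → ℝ) (T : Op) : Prop := ∀ x n, T x n = w (n + 1) * x (n + 1)

theorem result (w : ℕ → ℝ) (hw : ∀ n, 1 ≤ n → 0 < w n) (T : Op) (hT : IsShift w T) :
    MultRec (idAdd T) := by
  intro U hU hne N
  unfold idAdd
  let W : ℕ → ℂ := fun n => ∏ i ∈ range n, (w (i + 1) : ℂ)
  have w0 : ∀ n, (w (n + 1) : ℂ) ≠ 0 := fun n => by exact_mod_cast (hw _ (by omega)).ne'
  have W0 : ∀ n, W n ≠ 0 := fun n => Finset.prod_ne_zero_iff.2 fun i _ => w0 i
  have orb : ∀ (m : ℕ) (f : ℂ → ℂ), (∀ n, m ≤ n → (fwdDiff 1)^[n] f = 0) → ∀ t : ℕ,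
      ((1 + T) ^ t) (vec W m f 0) = vec W m f t := by
    intro m f hf t
    induction t with
    | zero => simp
    | succ t ih =>
      rw [pow_succ', mul_apply_eq_comp, ih]
      refine lp.ext (funext fun n => ?_)
      show vec W m f t n + T (vec W m f t) n = _
      rw [hT, vec_apply W hf, vec_apply W hf, vec_apply W hf, Function.iterate_succ_apply',
        fwdDiff, show W (n + 1) = W n * w (n + 1) from Finset.prod_range_succ _ _]
      have := w0 n
      have := W0 n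
      push_cast; field_simp; ring
  obtain ⟨u, hu⟩ := hne
  obtain ⟨d, hd⟩ := ((lp.hasSum_single (p := 2) (by norm_num) u).tendsto_sum_nat.eventually
    (hU.mem_nhds hu)).exists
  obtain ⟨q, q1, q2, q3⟩ := interp d fun i => u i * W i
  have hq : vec W (d + (d + 1) * (N + 1) + 1) q.eval 0 ∈ U := by
    have e : ∀ i : ℕ, lp.single (E := fun _ : ℕ => ℂ) 2 i (u i) = u i • delta i := fun i => by
      refine lp.ext (funext fun j => ?_)
      rw [lp.coeFn_smul, Pi.smul_apply, delta_apply, lp.single_apply, Pi.single_apply]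
      simp
    have hd' : (∑ i ∈ range d, lp.single (E := fun _ : ℕ => ℂ) 2 i (u i)) ∈ U := hd
    simp only [e] at hd'
    suffices H : vec W (d + (d + 1) * (N + 1) + 1) q.eval 0 = ∑ i ∈ range d, u i • delta i by
      rw [H]; exact hd'
    refine lp.ext (funext fun n => ?_)
    rw [vec_apply W fun n hn => q2 n (by omega), sum_apply']
    split_ifs with h
    · rw [q3 n h, mul_div_cancel_right₀ _ (W0 n)]
    · rw [q2 n (not_lt.1 h)]; simp
  have lim : ∀ j ∈ range (N + 1), ∀ᶠ k : ℕ in atTop,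
      vec W (d + (d + 1) * (N + 1) + 1) (pk q N (d + 1) k).eval ((j * k : ℕ) : ℂ) ∈ U := by
    intro j hj
    refine Tendsto.eventually ?_ (hU.mem_nhds hq)
    refine tendsto_finsetSum _ fun i _ => (Tendsto.div_const ?_ _).smul_const _
    simp only [fwdDiff_iter_eq_sum_shift, zero_add, Nat.cast_mul]
    exact tendsto_finsetSum _ fun r _ =>
      (pk_lim (by omega) (Nat.lt_succ_iff.1 (mem_range.1 hj)) _).const_smul _
  obtain ⟨k, k1, k2⟩ := ((eventually_ge_atTop 1).and ((eventually_all_finset _).2 lim)).exists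
  refine ⟨k, k1, vec W (d + (d + 1) * (N + 1) + 1) (pk q N (d + 1) k).eval 0, fun j hj => ?_⟩
  rw [orb _ _ fun n hn => fwdDiff_iter_eq_zero_of_degree_lt (by
    have := pk_deg q N (d + 1) k; omega)]
  exact k2 j (mem_range.2 (by omega))

end Pool.Agent.Results.MP_a8995d_an.MultRec
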